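import Pool.Agent.H52.MG.Basic
import Pool.Agent.H52.MG.Targets

/-!
# MG, module CNT: counting lemma
-/

set_option autoImplicit false

noncomputable section

open Classical Module
open scoped Matrix

namespace Pool.Agent.H62.MG

open Pool.Agent.H52.MG

theorem cnt : T_CNT := by
  intro K _ m hm h2 hno
  -- abbreviations
  set A : ℕ := ∑ x, ∑ y, if mdeg m x = 2 then m x y else 0 with hA
  set B : ℕ := ∑ x, ∑ y, if mdeg m x ≠ 2 ∧ mdeg m y = 2 then m x y else 0 with hB
  set Y : ℕ := ∑ x, ∑ y, if mdeg m x ≠ 2 ∧ mdeg m y ≠ 2 then m x y else 0 with hY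
  set n2 : ℕ := ((Finset.univ : Finset K).filter (fun x => mdeg m x = 2)).card with hn2
  have htot : ∑ x, mdeg m x = A + B + Y := by
    rw [hA, hB, hY, ← Finset.sum_add_distrib, ← Finset.sum_add_distrib]
    refine Finset.sum_congr rfl fun x _ => ?_
    rw [← Finset.sum_add_distrib, ← Finset.sum_add_distrib]
    refine Finset.sum_congr rfl fun y _ => ?_
    by_cases h1 : mdeg m x = 2 <;> by_cases h3 : mdeg m y = 2 <;> simp [h1, h3]
  have hA2 : A = 2 * n2 := by
    have : ∀ x : K, (∑ y, if mdeg m x = 2 then m x y else 0) =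
        if mdeg m x = 2 then 2 else 0 := by
      intro x
      by_cases h1 : mdeg m x = 2
      · simp only [h1, if_true]
        exact h1
      · simp [h1]
    rw [hA, Finset.sum_congr rfl (fun x _ => this x), ← Finset.sum_filter, Finset.sum_const,
      smul_eq_mul, hn2, mul_comm]
  have hBA : B = A := by
    rw [hB, Finset.sum_comm, hA]
    refine Finset.sum_congr rfl fun x _ => Finset.sum_congr rfl fun y _ => ?_
    by_cases h1 : mdeg m x = 2 <;> by_cases h3 : mdeg m y = 2
    · simp [h1, h3, hno x y h1 h3]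
    · simp [h1, h3, hm.1 x y]
    · simp [h1, h3]
    · simp [h1, h3]
  have hlow : 3 * Fintype.card K ≤ (∑ x, mdeg m x) + n2 := by
    have h4 : ∀ x : K, 3 ≤ mdeg m x + (if mdeg m x = 2 then 1 else 0) := by
      intro x
      have := h2 x
      split_ifs with h <;> omega
    have h5 : ∑ _x : K, 3 ≤ ∑ x, (mdeg m x + (if mdeg m x = 2 then 1 else 0)) :=
      Finset.sum_le_sum fun x _ => h4 x
    rw [Finset.sum_add_distrib, Finset.sum_const, ← Finset.sum_filter, Finset.sum_const,
      smul_eq_mul, smul_eq_mul, mul_one, Finset.card_univ, ← hn2] at h5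
    omega
  omega

end Pool.Agent.H62.MG
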