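import Pool.Agent.H52.MG.Basic
import Pool.Agent.H52.MG.Targets

/-!
# MG, module DEG: classes of degree at least three have bodies with at least four atoms
-/

set_option autoImplicit false

noncomputable section

open Classical Module
open scoped Matrix

namespace Pool.Agent.H62.MG

open Pool.Agent.H52.MG

theorem deg : T_DEG := by
  intro V _ G c v h
  set A : Finset V := Finset.univ.filter (fun u => c u = c v) with hA
  set N : Finset V := Finset.univ.filter (fun u => c u ≠ c v ∧ ∃ w, G.Adj u w ∧ c w = c v) with hN
  have h1 : dgc G c v ≤ A.card * N.card := by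
    rw [← Finset.card_product]
    unfold dgc
    apply Finset.card_le_card
    intro x hx
    simp only [Finset.mem_filter, Finset.mem_univ, true_and] at hx
    rw [Finset.mem_product, hA, hN, Finset.mem_filter, Finset.mem_filter]
    exact ⟨⟨Finset.mem_univ _, hx.1⟩, Finset.mem_univ _, hx.2.1, x.1, hx.2.2.symm, hx.1⟩
  have h2 : (Bd G c v).ncard = A.card + N.card := by
    have h3 : Bd G c v = ((A ∪ N : Finset V) : Set V) := by
      ext u
      simp only [Bd, Set.mem_ofPred_eq, Finset.coe_union, Set.mem_union, Finset.mem_coe, hA, hN,
        Finset.mem_filter, Finset.mem_univ, true_and]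
      tauto
    rw [h3, Set.ncard_coe_finset, Finset.card_union_of_disjoint]
    rw [Finset.disjoint_left]
    intro u hu hu'
    simp only [hA, hN, Finset.mem_filter, Finset.mem_univ, true_and] at hu hu'
    exact hu'.1 hu
  rw [h2]
  by_contra hlt
  push Not at hlt
  have h4 : 3 ≤ A.card * N.card := h.trans h1
  have h5 : A.card ≤ 3 := by omega
  have h6 : N.card ≤ 3 := by omega
  interval_cases hAc : A.card <;> interval_cases hNc : N.card <;> omega

end Pool.Agent.H62.MG
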