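import Pool.Agent.H52.MG.Basic
import Pool.Agent.H52.MG.Targets

/-!
# MG, module GP: generic configurations are in general position
-/

set_option autoImplicit false

noncomputable section

open Classical Module
open scoped Matrix

namespace Pool.Agent.H62.MG

open Pool.Agent.H52.MG

/-- a polynomial expression in the coordinates of a generic configuration which is nonzero at
one rational configuration is nonzero -/
lemma gen_ne {V : Type} [Fintype V] {p : V → Vec} (hp : Gen p)
    (P : MvPolynomial (V × Fin 3) ℚ) (r : V × Fin 3 → ℚ) (h : MvPolynomial.eval r P ≠ 0) :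
    MvPolynomial.aeval (fun x : V × Fin 3 => p x.1 x.2) P ≠ 0 := by
  intro h0
  have hinj : Function.Injective
      (MvPolynomial.aeval (R := ℚ) (fun x : V × Fin 3 => p x.1 x.2)) := hp
  have : P = 0 := hinj (by rw [h0, map_zero])
  apply h
  rw [this, map_zero]

theorem gp : T_GP := by
  intro V _ p hp
  refine ⟨fun a b hab h0 => ?_, fun a b e hab hae hbe h0 => ?_,
    fun a b e f hab hae haf hbe hbf hef h0 => ?_⟩
  · refine gen_ne hp (MvPolynomial.X (a, 0) - MvPolynomial.X (b, 0))
      (fun x => if x.1 = b then 1 else 0) ?_ ?_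
    · simp [hab]
    · simp [h0]
  · refine gen_ne hp ((MvPolynomial.X (b, 0) - MvPolynomial.X (a, 0)) *
      (MvPolynomial.X (e, 1) - MvPolynomial.X (a, 1)) -
      (MvPolynomial.X (b, 1) - MvPolynomial.X (a, 1)) *
      (MvPolynomial.X (e, 0) - MvPolynomial.X (a, 0)))
      (fun x => if x = (b, 0) then 1 else if x = (e, 1) then 1 else 0) ?_ ?_
    · simp [hab, hae, hbe, Ne.symm hbe]
    · have h1 := congrFun h0 2
      rw [cross_eq] at h1
      simpa using h1
  · refine gen_ne hp (
      (MvPolynomial.X (b, 0) - MvPolynomial.X (a, 0)) *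
      ((MvPolynomial.X (e, 1) - MvPolynomial.X (a, 1)) *
       (MvPolynomial.X (f, 2) - MvPolynomial.X (a, 2)) -
       (MvPolynomial.X (e, 2) - MvPolynomial.X (a, 2)) *
       (MvPolynomial.X (f, 1) - MvPolynomial.X (a, 1))) +
      (MvPolynomial.X (b, 1) - MvPolynomial.X (a, 1)) *
      ((MvPolynomial.X (e, 2) - MvPolynomial.X (a, 2)) *
       (MvPolynomial.X (f, 0) - MvPolynomial.X (a, 0)) -
       (MvPolynomial.X (e, 0) - MvPolynomial.X (a, 0)) *
       (MvPolynomial.X (f, 2) - MvPolynomial.X (a, 2))) +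
      (MvPolynomial.X (b, 2) - MvPolynomial.X (a, 2)) *
      ((MvPolynomial.X (e, 0) - MvPolynomial.X (a, 0)) *
       (MvPolynomial.X (f, 1) - MvPolynomial.X (a, 1)) -
       (MvPolynomial.X (e, 1) - MvPolynomial.X (a, 1)) *
       (MvPolynomial.X (f, 0) - MvPolynomial.X (a, 0))))
      (fun x => if x = (b, 0) then 1 else if x = (e, 1) then 1 else if x = (f, 2) then 1 else 0)
      ?_ ?_
    · simp [hab, hae, haf, hbe, hbf, hef, Ne.symm hbe, Ne.symm hbf, Ne.symm hef]
    · rw [cross_eq, dot3] at h0
      simpa using h0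

end Pool.Agent.H62.MG
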