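import Pool.Agent.H52.MG.Basic
import Pool.Agent.H52.MG.Targets

/-!
# MG, module HB: motions of the bar graph minus an atom come from pinned screw motions
-/

set_option autoImplicit false

noncomputable section

open Classical Module
open scoped Matrix

namespace Pool.Agent.H62.MG

open Pool.Agent.H52.MG

theorem hb (hCLQ : T_CLQ) : T_HB := by
  intro V _ G c p v hp m hm
  let Sc : Set V → Scr := fun X => if h : ∃ S : Scr, ∀ u ∈ X, m u = ev S (p u) then h.choose else 0
  have hex : ∀ u : V, ∃ S : Scr, ∀ x ∈ Bd G c u \ {v}, m x = ev S (p x) := by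
    intro u
    apply hCLQ V p hp
    intro x hx y hy
    by_cases hxy : x = y
    · subst hxy; simp
    · exact hm x y ⟨⟨hxy, u, hx.1, hy.1⟩, hx.2, hy.2⟩
  have hSc : ∀ u : V, ∀ x ∈ Bd G c u \ {v}, m x = ev (Sc (Bd G c u \ {v})) (p x) := by
    intro u x hx
    have h1 : Sc (Bd G c u \ {v}) = (hex u).choose := dif_pos (hex u)
    rw [h1]
    exact (hex u).choose_spec x hx
  refine ⟨fun u => Sc (Bd G c u \ {v}), ?_, fun x hx => ?_⟩
  · rw [mem_PinMot]
    refine ⟨fun u w e => ?_, fun u w e hu => ?_⟩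
    · simp only [Bd_congr e]
    · have h1 := hSc u u ⟨mem_Bd_self G c u, hu⟩
      have h2 := hSc w u ⟨mem_Bd_of_adj e, hu⟩
      rw [← h1, ← h2]
  · exact hSc x x ⟨mem_Bd_self G c x, hx⟩

/-- the motion of the atoms given by screws, and by a free vector at the atom `v` -/
def evMap {V : Type} (p : V → Vec) (v : V) : ((V → Scr) × Vec) →ₗ[ℝ] (V → Vec) where
  toFun z := fun x => if x = v then z.2 else ev (z.1 x) (p x)
  map_add' := by
    intro a b
    funext x
    simp only [Pi.add_apply, Prod.fst_add, Prod.snd_add, ev_add]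
    split_ifs <;> rfl
  map_smul' := by
    intro r a
    funext x
    simp only [Pi.smul_apply, Prod.smul_fst, Prod.smul_snd, ev_smul, RingHom.id_apply]
    split_ifs <;> rfl

theorem fb (hCLQ : T_CLQ) : T_FB := by
  intro V _ G c p v N hp hN
  let F : (N × Vec) →ₗ[ℝ] (V → Vec) :=
    (evMap p v).comp (N.subtype.prodMap (LinearMap.id : Vec →ₗ[ℝ] Vec))
  have hle : infMot (delV (HP G c) v) p ≤ LinearMap.range F := by
    intro m hm
    obtain ⟨S, hS, hmS⟩ := hb hCLQ V G c p v hp m hm
    obtain ⟨S', hS', hSS'⟩ := hN S hS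
    refine ⟨(⟨S', hS'⟩, m v), ?_⟩
    funext x
    change (if x = v then m v else ev (S' x) (p x)) = m x
    by_cases hx : x = v
    · simp [hx]
    · rw [if_neg hx, hSS' x hx, hmS x hx]
  have h1 := Submodule.finrank_mono hle
  have h2 : finrank ℝ (LinearMap.range F) ≤ finrank ℝ (N × Vec) := LinearMap.finrank_range_le F
  have h3 : finrank ℝ (N × Vec) = finrank ℝ N + 3 := by
    rw [finrank_prod]
    simp [Vec]
  omega

end Pool.Agent.H62.MG
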