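import Pool.Agent.H52.MG.Basic
import Pool.Agent.H52.MG.Targets

/-!
# MG, module ISO: congruent configurations differ by an isometry
-/

set_option autoImplicit false

noncomputable section

open Classical Module
open scoped Matrix

namespace Pool.Agent.H62.MG

open Pool.Agent.H52.MG

/-- the Euclidean space -/
abbrev E3 := EuclideanSpace ℝ (Fin 3)

/-- points as elements of the Euclidean space -/
def toE : Vec ≃ₗ[ℝ] E3 := (WithLp.linearEquiv 2 ℝ Vec).symm

lemma toE_inner (x y : Vec) : inner ℝ (toE x) (toE y) = x ⬝ᵥ y := by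
  rw [toE, PiLp.inner_apply, dot3, Fin.sum_univ_three]
  simp
  ring

lemma toE_norm (x y : Vec) (h : x ⬝ᵥ x = y ⬝ᵥ y) : ‖toE x‖ = ‖toE y‖ := by
  rw [← toE_inner, ← toE_inner, real_inner_self_eq_norm_sq, real_inner_self_eq_norm_sq] at h
  exact (sq_eq_sq₀ (norm_nonneg _) (norm_nonneg _)).mp h

/-- extension of a partial isometry -/
lemma ext_iso {C : Type} [AddCommGroup C] [Module ℝ C] (A B : C →ₗ[ℝ] E3)
    (h : ∀ c, ‖A c‖ = ‖B c‖) : ∃ M : E3 →ₗᵢ[ℝ] E3, ∀ c, M (A c) = B c := by
  obtain ⟨g, hg⟩ := LinearMap.exists_rightInverse_of_surjective A.rangeRestrict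
    (LinearMap.range_rangeRestrict A)
  have hg' : ∀ y : LinearMap.range A, A (g y) = y.1 := by
    intro y
    have := LinearMap.congr_fun hg y
    exact congrArg Subtype.val this
  have hker : ∀ c, A c = 0 → B c = 0 := by
    intro c hc
    have := h c
    rw [hc, norm_zero] at this
    exact norm_eq_zero.mp this.symm
  let L : LinearMap.range A →ₗᵢ[ℝ] E3 :=
    { toLinearMap := B.comp g
      norm_map' := by
        intro y
        rw [LinearMap.comp_apply, ← h, hg']
        rfl }
  refine ⟨L.extend, fun c => ?_⟩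
  have h1 := L.extend_apply ⟨A c, LinearMap.mem_range_self A c⟩
  have h2 : L.extend (A c) = L ⟨A c, LinearMap.mem_range_self A c⟩ := h1
  rw [h2]
  change B (g ⟨A c, LinearMap.mem_range_self A c⟩) = B c
  have h3 : A (g ⟨A c, LinearMap.mem_range_self A c⟩ - c) = 0 := by
    rw [map_sub, hg', sub_self]
  have h4 := hker _ h3
  rw [map_sub] at h4
  exact sub_eq_zero.mp h4

theorem iso : T_ISO := by
  intro V _ X p q hX
  rcases X.eq_empty_or_nonempty with h | ⟨x0, hx0⟩
  · subst h
    exact ⟨1, 0, by simp [Orth], fun x hx => hx.elim⟩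
  · -- difference vectors
    let a : V → Vec := fun x => if x ∈ X then p x - p x0 else 0
    let b : V → Vec := fun x => if x ∈ X then q x - q x0 else 0
    have hgram : ∀ x y, a x ⬝ᵥ a y = b x ⬝ᵥ b y := by
      intro x y
      by_cases hx : x ∈ X
      · by_cases hy : y ∈ X
        · simp only [a, b, hx, hy, if_true]
          have h1 := hX x hx x0 hx0
          have h2 := hX y hy x0 hx0
          have h3 := hX x hx y hy
          simp only [dsq, dot3, Pi.sub_apply] at h1 h2 h3 ⊢
          linarith
        · simp [a, b, hy]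
      · simp [a, b, hx]
    let A : (V → ℝ) →ₗ[ℝ] E3 := ∑ x, (LinearMap.toSpanSingleton ℝ E3 (toE (a x))).comp
      (LinearMap.proj x)
    let B : (V → ℝ) →ₗ[ℝ] E3 := ∑ x, (LinearMap.toSpanSingleton ℝ E3 (toE (b x))).comp
      (LinearMap.proj x)
    have hA : ∀ c, A c = ∑ x, c x • toE (a x) := by
      intro c; simp [A]
    have hB : ∀ c, B c = ∑ x, c x • toE (b x) := by
      intro c; simp [B]
    have hnorm : ∀ c, ‖A c‖ = ‖B c‖ := by
      intro c
      have h1 : inner ℝ (A c) (A c) = inner ℝ (B c) (B c) := by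
        rw [hA, hB, sum_inner, sum_inner]
        refine Finset.sum_congr rfl fun x _ => ?_
        rw [inner_sum, inner_sum]
        refine Finset.sum_congr rfl fun y _ => ?_
        rw [inner_smul_left, inner_smul_right, inner_smul_left, inner_smul_right, toE_inner,
          toE_inner, hgram]
      rw [real_inner_self_eq_norm_sq, real_inner_self_eq_norm_sq] at h1
      exact (sq_eq_sq₀ (norm_nonneg _) (norm_nonneg _)).mp h1
    obtain ⟨M, hM⟩ := ext_iso A B hnorm
    let f : Vec →ₗ[ℝ] Vec := (toE.symm.toLinearMap.comp M.toLinearMap).comp toE.toLinearMap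
    have hf : ∀ v, toE (f v) = M (toE v) := by
      intro v; simp [f]
    have hdot : ∀ u v, f u ⬝ᵥ f v = u ⬝ᵥ v := by
      intro u v
      rw [← toE_inner, ← toE_inner, hf, hf, LinearIsometry.inner_map_map]
    have hab : ∀ x, f (a x) = b x := by
      intro x
      apply toE.injective
      rw [hf]
      have h1 := hM (Pi.single x 1)
      rw [hA, hB] at h1
      simpa [Pi.single_apply, ite_smul] using h1
    refine ⟨LinearMap.toMatrix' f, q x0 - f (p x0), ?_, fun x hx => ?_⟩
    · unfold Orth
      ext i j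
      rw [Matrix.mul_apply]
      have h1 := hdot (Pi.single i 1) (Pi.single j 1)
      simp only [dotProduct] at h1
      simp only [Matrix.transpose_apply, LinearMap.toMatrix'_apply]
      rw [h1]
      simp [Matrix.one_apply, Pi.single_apply, eq_comm]
    · rw [LinearMap.toMatrix'_mulVec]
      have h1 := hab x
      simp only [a, b, hx, if_true, map_sub] at h1
      have h2 : q x = (q x - q x0) + q x0 := by abel
      rw [h2, ← h1]; abel

end Pool.Agent.H62.MG
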