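import Pool.Agent.H52.MG.Basic
import Pool.Agent.H52.MG.Targets

/-!
# MG, module MGA: merging bounds
-/

set_option autoImplicit false

noncomputable section

open Classical Module
open scoped Matrix

namespace Pool.Agent.H62.MG

open Pool.Agent.H52.MG

/-- dimension count for a linear map on a submodule -/
lemma finrank_le_of_map {E F : Type} [AddCommGroup E] [Module ℝ E] [FiniteDimensional ℝ E]
    [AddCommGroup F] [Module ℝ F] [FiniteDimensional ℝ F] (N N' : Submodule ℝ E)
    (R : Submodule ℝ F) (f : E →ₗ[ℝ] F) (h1 : ∀ S ∈ N, f S = 0 → S ∈ N')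
    (h2 : ∀ S ∈ N, f S ∈ R) : finrank ℝ N ≤ finrank ℝ N' + finrank ℝ R := by
  have h3 := LinearMap.finrank_range_add_finrank_ker (f.domRestrict N)
  have h4 : finrank ℝ (LinearMap.range (f.domRestrict N)) ≤ finrank ℝ R := by
    apply Submodule.finrank_mono
    rintro _ ⟨S, rfl⟩
    exact h2 S.1 S.2
  have h5 : finrank ℝ (LinearMap.ker (f.domRestrict N)) ≤ finrank ℝ N' := by
    have h6 : finrank ℝ ((LinearMap.ker (f.domRestrict N)).map N.subtype) =
        finrank ℝ (LinearMap.ker (f.domRestrict N)) :=
      (Submodule.equivMapOfInjective N.subtype (Submodule.injective_subtype N) _).finrank_eq.symm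
    rw [← h6]
    apply Submodule.finrank_mono
    rintro _ ⟨S, hS, rfl⟩
    exact h1 S.1 S.2 (by simpa using hS)
  omega

theorem mga : T_MGA := by
  intro V _ G c p a b
  have hker : ∀ S ∈ Mot G c p, dif a b S = 0 → S ∈ Mot G (mrg c b a) p := by
    intro S hS h0
    have hab : S a = S b := by
      have : S a - S b = 0 := h0
      exact sub_eq_zero.mp this
    rw [mem_Mot] at hS ⊢
    refine ⟨fun u w e => ?_, hS.2⟩
    have key : ∀ x, S x = if c x = c a then S b else S x := by
      intro x
      split_ifs with h
      · rw [← hab]; exact hS.1 x a h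
      · rfl
    unfold mrg at e
    by_cases hu : c u = c a <;> by_cases hw : c w = c a
    · rw [key u, key w, if_pos hu, if_pos hw]
    · rw [if_pos hu, if_neg hw] at e
      rw [key u, if_pos hu]; exact hS.1 b w e
    · rw [if_neg hu, if_pos hw] at e
      rw [key w, if_pos hw]; exact hS.1 u b e
    · rw [if_neg hu, if_neg hw] at e
      exact hS.1 u w e
  refine ⟨?_, fun hadj hp => ?_⟩
  · have := finrank_le_of_map (Mot G c p) (Mot G (mrg c b a) p) ⊤ (dif a b) hker
      (fun _ _ => Submodule.mem_top)
    rw [finrank_top, finrank_scr] at this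
    exact this
  · have := finrank_le_of_map (Mot G c p) (Mot G (mrg c b a) p)
      (Submodule.span ℝ {lin (p a) (p b)}) (dif a b) hker (by
        intro S hS
        obtain ⟨r, hr⟩ := Mot_edge hS hadj hp
        have : dif a b S = S a - S b := rfl
        rw [this, hr]
        exact Submodule.smul_mem _ _ (Submodule.mem_span_singleton_self _))
    have h1 : finrank ℝ (Submodule.span ℝ {lin (p a) (p b)}) ≤ 1 := by
      have := finrank_span_le_card (R := ℝ) ({lin (p a) (p b)} : Set Scr)
      simpa using this
    omega

end Pool.Agent.H62.MG
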