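import Pool.Agent.H52.MG.Basic
import Pool.Agent.H52.MG.Targets

/-!
# MG, module RES: resolution of loads, redundant bars
-/

set_option autoImplicit false

noncomputable section

open Classical Module
open scoped Matrix

namespace Pool.Agent.H62.MG

open Pool.Agent.H52.MG

/-- the load resolved by the (symmetrised, restricted) coefficients -/
def loadMap {V : Type} [Fintype V] (H : SimpleGraph V) (p : V → Vec) :
    (V → V → ℝ) →ₗ[ℝ] (V → Vec) where
  toFun ω := fun u => ∑ w, (if H.Adj u w then ω u w + ω w u else 0) • (p u - p w)
  map_add' := by
    intro a b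
    funext u
    simp only [Pi.add_apply]
    rw [← Finset.sum_add_distrib]
    refine Finset.sum_congr rfl fun w _ => ?_
    rw [← add_smul]
    congr 1
    split_ifs <;> ring
  map_smul' := by
    intro r a
    funext u
    simp only [Pi.smul_apply, RingHom.id_apply, smul_eq_mul]
    rw [Finset.smul_sum]
    refine Finset.sum_congr rfl fun w _ => ?_
    rw [← mul_smul]
    congr 1
    split_ifs <;> ring

theorem res : T_RES := by
  intro V _ H p F hF
  suffices hmem : F ∈ LinearMap.range (loadMap H p) by
    obtain ⟨ω, hω⟩ := hmem
    refine ⟨fun u w => if H.Adj u w then ω u w + ω w u else 0, fun u w => ?_, fun u w h => ?_,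
      fun u => ?_⟩
    · simp only [H.adj_comm u w]
      split_ifs
      · ring
      · rfl
    · simp [h]
    · exact congrFun hω u
  by_contra hnot
  obtain ⟨φ, hφ2, hφ1⟩ := Submodule.exists_le_ker_of_notMem hnot
  let m : V → Vec := fun v i => φ (Pi.single v (Pi.single i 1))
  have hrep : ∀ G : V → Vec, φ G = ∑ v, G v ⬝ᵥ m v := by
    intro G
    have h1 : G = ∑ v, ∑ i, G v i • (Pi.single v (Pi.single i (1 : ℝ)) : V → Vec) := by
      funext u j
      simp only [Finset.sum_apply, Pi.smul_apply, smul_eq_mul]
      rw [Finset.sum_eq_single u, Finset.sum_eq_single j]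
      · simp
      · intro i _ hi
        simp [Pi.single_apply, Ne.symm hi]
      · simp
      · intro v _ hv
        apply Finset.sum_eq_zero
        intro i _
        rw [Pi.single_eq_of_ne (Ne.symm hv)]
        simp
      · simp
    conv_lhs => rw [h1]
    rw [map_sum]
    refine Finset.sum_congr rfl fun v _ => ?_
    rw [map_sum, dotProduct]
    refine Finset.sum_congr rfl fun i _ => ?_
    rw [map_smul, smul_eq_mul]
  have hm : m ∈ infMot H p := by
    intro u w huw
    have hne : u ≠ w := huw.ne
    have h1 : φ (loadMap H p (fun x y => if x = u ∧ y = w then 1 else 0)) = 0 := by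
      have := hφ1 (LinearMap.mem_range_self (loadMap H p) (fun x y => if x = u ∧ y = w then 1 else 0))
      exact this
    have h2 : loadMap H p (fun x y => if x = u ∧ y = w then 1 else 0) =
        fun x => (if x = u then (p u - p w) else 0) + (if x = w then (p w - p u) else 0) := by
      funext x
      change ∑ y, (if H.Adj x y then (if x = u ∧ y = w then (1:ℝ) else 0) +
        (if y = u ∧ x = w then 1 else 0) else 0) • (p x - p y) = _
      have h3 : ∀ y, (if H.Adj x y then (if x = u ∧ y = w then (1:ℝ) else 0) +
        (if y = u ∧ x = w then 1 else 0) else 0) • (p x - p y) =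
        (if y = w then (if x = u then (p u - p w) else 0) else 0) +
        (if y = u then (if x = w then (p w - p u) else 0) else 0) := by
        intro y
        by_cases hx : x = u
        · subst hx
          by_cases hy : y = w
          · subst hy
            simp [huw, Ne.symm hne]
          · simp [hy, hne]
        · by_cases hx' : x = w
          · subst hx'
            by_cases hy : y = u
            · subst hy
              simp [huw.symm, hne]
            · simp [hy, hx]
          · simp [hx, hx']
      rw [Finset.sum_congr rfl (fun y _ => h3 y), Finset.sum_add_distrib]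
      simp
    rw [h2, hrep] at h1
    simp only [add_dotProduct] at h1
    rw [Finset.sum_add_distrib] at h1
    have h4 : ∑ x, (if x = u then (p u - p w) else 0) ⬝ᵥ m x = (p u - p w) ⬝ᵥ m u := by
      rw [Finset.sum_eq_single u]
      · simp
      · intro v _ hv; simp [hv]
      · simp
    have h5 : ∑ x, (if x = w then (p w - p u) else 0) ⬝ᵥ m x = (p w - p u) ⬝ᵥ m w := by
      rw [Finset.sum_eq_single w]
      · simp
      · intro v _ hv; simp [hv]
      · simp
    rw [h4, h5] at h1
    simp only [dot3, Pi.sub_apply] at h1 ⊢
    linarith
  apply hφ2
  rw [hrep]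
  exact hF m hm

theorem red : T_RED := by
  intro V _ H p a b hab hred
  have hne : a ≠ b := hab.ne
  obtain ⟨ω, hs, hsupp, hload⟩ := res V (delE H a b) p
    (fun x => (if x = a then (p a - p b) else 0) + (if x = b then (p b - p a) else 0)) (by
      intro m hm
      have h1 := hred m hm
      simp only [add_dotProduct]
      rw [Finset.sum_add_distrib]
      have h4 : ∑ x, (if x = a then (p a - p b) else 0) ⬝ᵥ m x = (p a - p b) ⬝ᵥ m a := by
        rw [Finset.sum_eq_single a]
        · simp
        · intro v _ hv; simp [hv]
        · simp
      have h5 : ∑ x, (if x = b then (p b - p a) else 0) ⬝ᵥ m x = (p b - p a) ⬝ᵥ m b := by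
        rw [Finset.sum_eq_single b]
        · simp
        · intro v _ hv; simp [hv]
        · simp
      rw [h4, h5]
      simp only [dot3, Pi.sub_apply] at h1 ⊢
      linarith)
  let e : V → V → ℝ := fun u w => if (u = a ∧ w = b) ∨ (u = b ∧ w = a) then 1 else 0
  refine ⟨fun u w => ω u w - e u w, ⟨fun u w => ?_, fun u w h => ?_, fun u => ?_⟩, ?_⟩
  · have : e u w = e w u := by
      simp only [e]
      congr 1
      apply propext
      tauto
    simp only [hs u w, this]
  · have h1 : ω u w = 0 := hsupp u w (fun h' => h h'.1)
    have h2 : e u w = 0 := by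
      simp only [e]
      rw [if_neg]
      rintro (⟨rfl, rfl⟩ | ⟨rfl, rfl⟩)
      · exact h hab
      · exact h hab.symm
    simp only [h1, h2, sub_zero]
  · simp only [sub_smul]
    rw [Finset.sum_sub_distrib, hload u, sub_eq_zero]
    have h3 : ∀ w, e u w • (p u - p w) =
        (if w = b then (if u = a then (p a - p b) else 0) else 0) +
        (if w = a then (if u = b then (p b - p a) else 0) else 0) := by
      intro w
      by_cases hu : u = a
      · subst hu
        by_cases hw : w = b
        · subst hw
          simp [e, Ne.symm hne]
        · simp [e, hw, hne]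
      · by_cases hu' : u = b
        · subst hu'
          by_cases hw : w = a
          · subst hw
            simp [e, hne]
          · simp [e, hw, hu]
        · simp [e, hu, hu']
    rw [Finset.sum_congr rfl (fun w _ => h3 w), Finset.sum_add_distrib]
    simp
  · have h1 : ω a b = 0 := hsupp a b (fun h' => h'.2.1 ⟨rfl, rfl⟩)
    simp [e, h1]

end Pool.Agent.H62.MG
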